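import Mathlib
import Pool.Agent.U935.KS.DeriveDense

/-!
Rational points over finite extensions on varieties with an abelian group of automorphisms of maximal
rank and positive entropy.
-/

set_option autoImplicit false

namespace Pool.Agent.U785.PD

open Pool.Agent.Q8.KS Pool.Agent.U935.KS Filter Topology

/-- The points of `V` over the finite extension `L` of the ground field with the absolute Galois
group `H`: the set `V(L)`. -/
def PointsOver {G : Type} [Group G] (V : Variety G) (H : Subgroup G) : Set V.Pt :=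
  {y | ∀ g ∈ H, g • y = y}

lemma orbit_le {G X : Type} [Group G] [MulAction G X] (H : Subgroup G) [hf : H.FiniteIndex] (x : X)
    (hx : ∀ g ∈ H, g • x = x) : (MulAction.orbit G x).ncard ≤ H.index := by
  have hle : H ≤ MulAction.stabilizer G x := fun g hg => hx g hg
  have h1 : (MulAction.orbit G x).ncard = (MulAction.stabilizer G x).index := by
    rw [← Nat.card_coe_set_eq, Subgroup.index]
    exact Nat.card_congr (MulAction.orbitEquivQuotientStabilizer G x)
  rw [h1]
  exact Nat.le_of_dvd (Nat.pos_of_ne_zero hf.index_ne_zero) (Subgroup.index_dvd_of_le hle)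

variable {G Γ : Type} [Group G] [AddCommGroup Γ] {V : Variety G} {Z : Zariski V}
  {Q : Geometry V Z}

lemma orbit_subset (P : GroupAction Q Γ) (H : Subgroup G) {x : V.Pt} (hx : x ∈ PointsOver V H) :
    (Set.range fun g : Γ => (P.act g).pt x) ⊆ PointsOver V H := by
  rintro _ ⟨g, rfl⟩ h hh
  change h • (P.act g).pt x = (P.act g).pt x
  rw [← (P.act g).pt_smul, hx h hh]

lemma infinite_of_dense (Z : Zariski V) {S B : Set V.Pt} (hB : IsClosed[Z.top] B)
    (hne : B ≠ Set.univ) (hS : @Dense _ Z.top S) : (S \ B).Infinite := by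
  letI := Z.top
  have := Z.t1
  have := Z.irreducible
  have := Z.infinite
  intro hfin
  have h1 : ((S \ B)ᶜ).Nonempty := by
    by_contra h
    rw [Set.not_nonempty_iff_eq_empty, Set.compl_empty_iff] at h
    rw [h] at hfin
    exact Set.infinite_univ hfin
  obtain ⟨y, hy⟩ := nonempty_preirreducible_inter hB.isOpen_compl hfin.isClosed.isOpen_compl
    (Set.nonempty_compl.2 hne) h1
  obtain ⟨z, hz, hzS⟩ := hS.inter_open_nonempty _
    (hB.isOpen_compl.inter hfin.isClosed.isOpen_compl) ⟨y, hy⟩
  exact hz.2 ⟨hzS, hz.1⟩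

lemma infinite_orbit (P : GroupAction Q Γ) {x : V.Pt} (hx : DenseUnder P x) :
    InfiniteUnder P x := by
  have h := infinite_of_dense Z (B := ∅) (@isClosed_empty _ Z.top)
    (by
      have := Z.infinite
      exact Set.empty_ne_univ) hx
  rw [Set.sdiff_empty] at h
  exact h

/-- **Rational points over finite extensions.** -/
theorem points (hV : NumberField V) (P : GroupAction Q Γ) (S : IntersectionNumbers Q)
    (hS : Preserves P S) (hdim : 2 ≤ V.dimPred + 1) (hP : MaximalEntropyRank P) :
    ∃ B : Set V.Pt, Exceptional P B ∧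
      (∀ H : Subgroup G, H.FiniteIndex → List.TFAE [@Dense _ Z.top (PointsOver V H),
        (PointsOver V H \ B).Infinite,
        ∃ x ∈ PointsOver V H \ B, InfiniteUnder P x]) ∧
      ∀ e : ℕ, {x : V.Pt | x ∉ B ∧ ∃ H : Subgroup G, H.FiniteIndex ∧ H.index ≤ e ∧
        x ∈ PointsOver V H ∧ ¬ @Dense _ Z.top (PointsOver V H)}.Finite := by
  letI := Z.top
  obtain ⟨⟨B, hB, h1, h2⟩, -⟩ := density hV P S hS (by omega) hP
  have key : ∀ (H : Subgroup G) (x : V.Pt), x ∈ PointsOver V H → DenseUnder P x →
      Dense (PointsOver V H) := fun H x hx hd => Dense.mono (orbit_subset P H hx) hd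
  refine ⟨B, hB, fun H hH => ?_, fun e => ?_⟩
  · tfae_have 1 → 2 := fun h => infinite_of_dense Z hB.closed hB.ne_univ h
    tfae_have 2 → 3 := by
      intro h
      obtain ⟨x, hx, hx'⟩ := (h.sdiff (h2 H.index)).nonempty
      refine ⟨x, hx, infinite_orbit P ?_⟩
      by_contra hd
      exact hx' ⟨hx.2, orbit_le H x hx.1, hd⟩
    tfae_have 3 → 1 := by
      rintro ⟨x, hx, hi⟩
      exact key H x hx.1 (h1 x hx.2 hi)
    tfae_finish
  · refine (h2 e).subset ?_
    rintro x ⟨hxB, H, hH, he, hx, hnd⟩
    exact ⟨hxB, (orbit_le H x hx).trans he, fun hd => hnd (key H x hx hd)⟩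

/-- **Density over all sufficiently large extensions.** -/
theorem large (hV : NumberField V) (P : GroupAction Q Γ) (S : IntersectionNumbers Q)
    (hS : Preserves P S) (hdim : 2 ≤ V.dimPred + 1) (hP : MaximalEntropyRank P) :
    ∃ H₀ : Subgroup G, H₀.FiniteIndex ∧ ∀ H ≤ H₀, @Dense _ Z.top (PointsOver V H) := by
  letI := Z.top
  obtain ⟨H₀, h1, h2⟩ := (density hV P S hS (by omega) hP).2
  refine ⟨H₀, h1, fun H hH => Dense.mono ?_ h2⟩
  intro y hy g hg
  exact hy g (hH hg)

end Pool.Agent.U785.PD
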